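import Pool.Agent.Y539.PiAdic.Average

/-!
MP_cc6759_lc, Q1: the average `π`-adic complexity of the words of length `n` is `n / 2 + O(1)`,
in both cases.
-/

set_option autoImplicit false

universe u

namespace Pool.Agent.Results.MP_cc6759_lc.PiAdicAverageHalf

open Module Pool.Agent.Y539.PiAdic

/-- Let `R` be an integral domain with the `ℤ`-basis `1, π, …, π^{d-1}`. First part: `d = 2` and
`π ^ 2 = - N`, with the size `log_N (u ^ 2 + N v ^ 2)`. Second part: `d ≥ 1` and `π ^ d = N`, with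
the size `max_i (d log_N |u_i| + i)`. In both, the average over the `N ^ n` words of length `n` of
the `π`-adic complexity differs from `n / 2` by at most a constant that does not depend on `n`. -/
theorem result :
    (∀ (R : Type u) [CommRing R] [IsDomain R] (N : ℕ) (π : R) (B : Basis (Fin 2) ℤ R),
      2 ≤ N → (∀ i : Fin 2, B i = π ^ (i : ℕ)) → π ^ 2 = -(N : R) →
      ∃ C : ℝ, ∀ n : ℕ,
        |(∑ w : Fin n → Fin N, wordComplexity (sizeOne B N) π w) / (N : ℝ) ^ n - (n : ℝ) / 2| ≤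
          C) ∧
    (∀ (R : Type u) [CommRing R] [IsDomain R] (N d : ℕ) (π : R) (B : Basis (Fin d) ℤ R),
      2 ≤ N → 1 ≤ d → (∀ i : Fin d, B i = π ^ (i : ℕ)) → π ^ d = (N : R) →
      ∃ C : ℝ, ∀ n : ℕ,
        |(∑ w : Fin n → Fin N, wordComplexity (sizeTwo B N) π w) / (N : ℝ) ^ n - (n : ℝ) / 2| ≤
          C) := by
  constructor
  · intro R _ _ N π B hN hB hπ
    have h : Good B π N (-1) := ⟨hN, two_pos, hB, by norm_num, by rw [hπ]; push_cast; ring⟩
    refine ⟨tailC B N + ((2 * (2 : ℕ) - 1) * tailC B N + 2 * (2 : ℕ) ^ 2 + Real.logb N (1 + N)),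
      fun n => ?_⟩
    obtain ⟨h1, h2⟩ := h.average (φ := sizeOne B N) (C := Real.logb N (1 + N))
      (fun x => (sizeOne_bounds B hN x).1) (fun x => (sizeOne_bounds B hN x).2) n
    have h3 : (0 : ℝ) ≤ tailC B N := by positivity
    have h4 : (0 : ℝ) ≤ Real.logb N (1 + N) :=
      Real.logb_nonneg (by exact_mod_cast hN) (by
        have : (0 : ℝ) ≤ N := by positivity
        linarith)
    rw [abs_le]
    push_cast at h1 h2 ⊢
    constructor <;> nlinarith
  · intro R _ _ N d π B hN hd hB hπ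
    have h : Good B π N 1 := ⟨hN, hd, hB, by norm_num, by rw [hπ]; push_cast; ring⟩
    refine ⟨tailC B N + ((2 * d - 1) * tailC B N + 2 * d ^ 2 + d), fun n => ?_⟩
    obtain ⟨h1, h2⟩ := h.average (φ := sizeTwo B N) (C := d)
      (fun x => (sizeTwo_bounds B hN x).1) (fun x => (sizeTwo_bounds B hN x).2) n
    have h3 : (0 : ℝ) ≤ tailC B N := by positivity
    have h4 : (1 : ℝ) ≤ d := by exact_mod_cast hd
    have h5 : (0 : ℝ) ≤ (2 * (d : ℝ) - 1) * tailC B N := mul_nonneg (by linarith) h3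
    have h6 : (0 : ℝ) ≤ 2 * (d : ℝ) ^ 2 := by positivity
    rw [abs_le]
    constructor <;> linarith

end Pool.Agent.Results.MP_cc6759_lc.PiAdicAverageHalf
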